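import Pool.Agent.Q145.TP.Runs
import Pool.Agent.Q145.LD.Tails

set_option autoImplicit false
set_option maxHeartbeats 4000000

/-! # The law for the longest run without hits -/

namespace Pool.Agent.Q145.TP

open Finset Filter
open Pool.Agent.Q145.RA (seqs card_seqs Reg kap surv card_filter_inst)
open Pool.Agent.Q145.LD (card_append mem_seqs card_not_le)

open scoped Classical

variable {α β : Type}

theorem run_mono (R : α → β → Prop) (V : Finset α) {K : ℕ} (s : Fin K → β) (k k' : ℕ) (h : k ≤ k') (hr : Run R V k' s) :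
    Run R V k s := by
  obtain ⟨n, hn, j, hj, h1⟩ := hr
  exact ⟨n, hn, j, by omega, fun i hi hi' => h1 i hi (by omega)⟩

theorem finish (ε c : ℝ) (hε : 0 < ε) (hε1 : ε ≤ 1) (hc : 0 < c) : ∃ K₀ : ℕ, ∀ (K k₀ m : ℕ) (p δ D : ℝ), K₀ ≤ K →
    1 ≤ k₀ → (K : ℝ) ≤ 2 * k₀ * m → 0 < δ → D ≤ 3 / ε * Real.log K → (k₀ : ℝ) ≤ D / δ →
    1 / δ ≤ (K : ℝ) ^ (ε / 8) → c * (K : ℝ) ^ (-1 + ε / 2) ≤ p → p ≤ 1 → (1 - p) ^ m ≤ ε / 2 := by
  have ht : Tendsto (fun K : ℕ => c * ε ^ 2 / 48 * (K : ℝ) ^ (ε / 4)) atTop atTop :=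
    ((tendsto_rpow_atTop (by positivity)).comp tendsto_natCast_atTop_atTop).const_mul_atTop (by positivity)
  obtain ⟨K₀, hK₀⟩ := eventually_atTop.1 ((ht.eventually_ge_atTop (Real.log (2 / ε))).and (eventually_ge_atTop 1))
  refine ⟨K₀, fun K k₀ m p δ D hK hk hm hδ hD hkD h1δ hp hp1 => ?_⟩
  obtain ⟨g1, g2⟩ := hK₀ K hK
  have hKr : (1 : ℝ) ≤ K := by exact_mod_cast g2
  have hK0 : (0 : ℝ) < K := by linarith
  have hkr : (1 : ℝ) ≤ k₀ := by exact_mod_cast hk
  have hp0 : 0 ≤ p := le_trans (by positivity) hp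
  have e1 : (1 - p) ^ m ≤ Real.exp (-(p * m)) := by
    have h1 : 1 - p ≤ Real.exp (-p) := by
      have := Real.add_one_le_exp (-p)
      linarith
    calc (1 - p) ^ m ≤ Real.exp (-p) ^ m := pow_le_pow_left₀ (by linarith) h1 m
      _ = _ := by
          rw [← Real.exp_nat_mul]
          congr 1
          ring
  refine e1.trans ?_
  -- the length of the blocks
  have h2 : Real.log K ≤ (K : ℝ) ^ (ε / 8) / (ε / 8) := Real.log_le_rpow_div hK0.le (by positivity)
  have h3 : (k₀ : ℝ) ≤ 24 / ε ^ 2 * (K : ℝ) ^ (ε / 4) := by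
    have h4 : D / δ ≤ (3 / ε * Real.log K) * (K : ℝ) ^ (ε / 8) := by
      rw [div_eq_mul_one_div]
      have h5 : D * (1 / δ) ≤ (3 / ε * Real.log K) * (1 / δ) := mul_le_mul_of_nonneg_right hD (by positivity)
      refine h5.trans (mul_le_mul_of_nonneg_left h1δ ?_)
      have := Real.log_nonneg hKr
      positivity
    refine hkD.trans (h4.trans ?_)
    have h6 : (3 / ε * Real.log K) * (K : ℝ) ^ (ε / 8) ≤
        (3 / ε * ((K : ℝ) ^ (ε / 8) / (ε / 8))) * (K : ℝ) ^ (ε / 8) := by
      apply mul_le_mul_of_nonneg_right _ (by positivity)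
      exact mul_le_mul_of_nonneg_left h2 (by positivity)
    refine h6.trans (le_of_eq ?_)
    have h7 : (K : ℝ) ^ (ε / 4) = (K : ℝ) ^ (ε / 8) * (K : ℝ) ^ (ε / 8) := by
      rw [← Real.rpow_add hK0]
      congr 1
      ring
    rw [h7]
    field_simp
    norm_num
  have h4 : Real.log (2 / ε) ≤ p * m := by
    refine g1.trans ?_
    have h5 : c * (K : ℝ) ^ (-1 + ε / 2) * m ≤ p * m := mul_le_mul_of_nonneg_right hp (Nat.cast_nonneg _)
    refine le_trans ?_ h5
    -- `K^(ε/2) ≤ 48/ε² K^(ε/4) m K^(-1 + ε/2)...`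
    have h6 : (K : ℝ) ^ (-1 + ε / 2) * K = (K : ℝ) ^ (ε / 4) * (K : ℝ) ^ (ε / 4) := by
      rw [← Real.rpow_add hK0]
      nth_rewrite 2 [← Real.rpow_one (K : ℝ)]
      rw [← Real.rpow_add hK0]
      congr 1
      ring
    have h7 : (K : ℝ) ^ (-1 + ε / 2) * K ≤ (K : ℝ) ^ (-1 + ε / 2) * (2 * (24 / ε ^ 2 * (K : ℝ) ^ (ε / 4)) * m) := by
      apply mul_le_mul_of_nonneg_left _ (by positivity)
      refine hm.trans ?_
      apply mul_le_mul_of_nonneg_right _ (Nat.cast_nonneg _)
      linarith
    rw [h6] at h7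
    have h8 : (0 : ℝ) < (K : ℝ) ^ (ε / 4) := by positivity
    have h9 : (K : ℝ) ^ (ε / 4) * (K : ℝ) ^ (ε / 4) ≤
        (48 / ε ^ 2 * ((K : ℝ) ^ (-1 + ε / 2) * m)) * (K : ℝ) ^ (ε / 4) := by
      refine h7.trans (le_of_eq ?_)
      ring
    have h10 := le_of_mul_le_mul_right h9 h8
    calc c * ε ^ 2 / 48 * (K : ℝ) ^ (ε / 4) ≤ c * ε ^ 2 / 48 * (48 / ε ^ 2 * ((K : ℝ) ^ (-1 + ε / 2) * m)) :=
          mul_le_mul_of_nonneg_left h10 (by positivity)
      _ = c * (K : ℝ) ^ (-1 + ε / 2) * m := by
          field_simp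
  calc Real.exp (-(p * m)) ≤ Real.exp (-Real.log (2 / ε)) := Real.exp_le_exp.2 (by linarith)
    _ = ε / 2 := by
        rw [Real.exp_neg, Real.exp_log (by positivity), inv_div]

theorem mis_of_surv (R : α → β → Prop) (V : Finset α) {k : ℕ} (s : Fin k → β) (h : 0 < surv R V s) : Mis R V s := by
  unfold surv at h
  obtain ⟨n, hn⟩ := card_pos.1 h
  rw [mem_filter] at hn
  exact ⟨n, hn.1, hn.2⟩

theorem one_sub_ge (x : ℝ) (h1 : x < 1) : Real.exp (-(x / (1 - x))) ≤ 1 - x := by
  have h2 := Real.add_one_le_exp (x / (1 - x))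
  have h3 : 0 < 1 - x := by linarith
  have h4 : x / (1 - x) + 1 = (1 - x)⁻¹ := by
    field_simp
    ring
  rw [h4] at h2
  rw [Real.exp_neg]
  exact inv_le_of_inv_le₀ h3 h2

theorem rate_bd (η δ : ℝ) (hη : η ≤ 1 / 10) (hδ : 0 < δ) (hδη : δ ≤ η) :
    (1 + η) * δ < 1 ∧ Real.exp (-((1 + 4 * η) * δ)) ≤ 1 - (1 + η) * δ := by
  have h1 : (1 + η) * δ ≤ 1 / 5 := by nlinarith
  refine ⟨by linarith, le_trans (Real.exp_le_exp.2 ?_) (one_sub_ge ((1 + η) * δ) (by linarith))⟩
  rw [neg_le_neg_iff, div_le_iff₀ (by linarith)]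
  have h3 : (1 + η) * δ ≤ 2 * η := by nlinarith
  have h4 : (1 + η) ≤ (1 + 4 * η) * (1 - (1 + η) * δ) := by nlinarith
  nlinarith

/-- **The law for the longest runs.** -/
theorem runs_law (ε : ℝ) (hε : 0 < ε) (hε1 : ε ≤ 1) : ∃ (η : ℝ) (X₀ N₀ : ℕ), 0 < η ∧
    ∀ (δ : ℝ) (S : Finset β) (V : Finset α) (R : α → β → Prop), 0 < δ → δ ≤ η → V.Nonempty →
    (∀ n ∈ V, (1 - η) * δ * S.card ≤ ((S.filter (fun a => R n a)).card : ℝ)) →
    (∀ n ∈ V, ((S.filter (fun a => R n a)).card : ℝ) ≤ (1 + η) * δ * S.card) →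
    (X₀ ≤ V.card → 3 ≤ V.card → Reg η δ S V R) → ∀ K : ℕ, N₀ ≤ V.card * K → 1 / δ ≤ ((V.card : ℝ) * K) ^ η →
    (((seqs S K).filter (fun s => ¬ ∀ t : ℕ,
      (Run R V t s → (t : ℝ) ≤ (1 + ε) * (Real.log (V.card * K) / δ)) ∧
      (t ≤ K → (t : ℝ) ≤ (1 - ε) * (Real.log (V.card * K) / δ) → Run R V t s))).card : ℝ) ≤
      ε * (S.card : ℝ) ^ K := by
  obtain ⟨X₁, hlow⟩ := Pool.Agent.Q145.RA.low (α := α) (β := β) (ε / 4) (by positivity) (by linarith)
  set X₀ : ℕ := max X₁ 3 with hX₀
  have hX₀r : (3 : ℝ) ≤ X₀ := by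
    have : 3 ≤ X₀ := le_max_right _ _
    exact_mod_cast this
  set c : ℝ := Real.exp (-2) / (4 * X₀) with hc
  have hc0 : 0 < c := by positivity
  obtain ⟨K₀, hK₀⟩ := finish ε c hε hε1 hc0
  have ht1 : Tendsto (fun N : ℕ => (N : ℝ) ^ (ε / 3)) atTop atTop :=
    (tendsto_rpow_atTop (by positivity)).comp tendsto_natCast_atTop_atTop
  have ht2 : Tendsto (fun N : ℕ => (N : ℝ) ^ (ε / 2)) atTop atTop :=
    (tendsto_rpow_atTop (by positivity)).comp tendsto_natCast_atTop_atTop
  obtain ⟨N₀, hN₀⟩ := eventually_atTop.1 ((ht1.eventually_ge_atTop (K₀ + 1)).and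
    ((ht2.eventually_ge_atTop (2 / ε)).and (eventually_ge_atTop (X₀ ^ 2 + 3))))
  set η : ℝ := min (ε / 400) (ε ^ 2 / 24) with hη
  have hη0 : 0 < η := lt_min (by positivity) (by positivity)
  have hη1 : η ≤ ε / 400 := min_le_left _ _
  have hη2 : η ≤ ε ^ 2 / 24 := min_le_right _ _
  refine ⟨η, X₀, N₀, hη0, fun δ S V R hδ hδη hV hlo hhi hreg K hN h1δ => ?_⟩
  obtain ⟨g1, g2, g3⟩ := hN₀ (V.card * K) hN
  push_cast at g1 g2
  set X : ℕ := V.card with hX
  have hX1 : 1 ≤ X := card_pos.2 hV
  have hK1 : 1 ≤ K := by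
    by_contra h
    have h0 : K = 0 := by omega
    rw [h0, Nat.mul_zero] at g3
    omega
  have hXr : (1 : ℝ) ≤ X := by exact_mod_cast hX1
  have hKr : (1 : ℝ) ≤ K := by exact_mod_cast hK1
  have hD3 : (3 : ℝ) ≤ (X : ℝ) * K := by
    have : 3 ≤ X * K := by nlinarith [sq_nonneg X₀]
    exact_mod_cast this
  set D : ℝ := Real.log (X * K) with hD
  have hD0 : 0 < D := Real.log_pos (by linarith)
  have hDs : D = Real.log X + Real.log K := Real.log_mul (by positivity) (by positivity)
  have hexpD : (X : ℝ) * K = Real.exp D := (Real.exp_log (by linarith)).symm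
  have hS0 : (0 : ℝ) ≤ S.card := Nat.cast_nonneg _
  have hSK : (0 : ℝ) ≤ (S.card : ℝ) ^ K := by positivity
  have hDpow : ∀ z : ℝ, ((X : ℝ) * K) ^ z = Real.exp (z * D) := fun z => by
    rw [Real.rpow_def_of_pos (by linarith), mul_comm]
  -- the upper half
  set k₁ : ℕ := ⌊(1 + ε) * (D / δ)⌋₊ + 1 with hk₁
  have hk₁' : (1 + ε) * (D / δ) ≤ k₁ := by
    rw [hk₁]
    push_cast
    exact (Nat.lt_floor_add_one _).le
  have hup : (((seqs S K).filter (fun s => Run R V k₁ s)).card : ℝ) ≤ ε / 2 * (S.card : ℝ) ^ K := by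
    refine (runs_upper η δ S V R hlo K k₁ (by omega)).trans (mul_le_mul_of_nonneg_right ?_ hSK)
    rw [← hX, hexpD, ← Real.exp_add]
    have e1 : (1 + ε / 2) * D ≤ (1 - η) * δ * k₁ := by
      have e2 : (1 + ε) * D ≤ δ * k₁ := by
        rw [mul_div_assoc', div_le_iff₀ hδ] at hk₁'
        linarith
      have e3 : (1 - η) * ((1 + ε) * D) ≤ (1 - η) * (δ * k₁) := mul_le_mul_of_nonneg_left e2 (by linarith)
      have e4 : (1 + ε / 2) * D ≤ (1 - η) * ((1 + ε) * D) := by
        rw [← mul_assoc]
        apply mul_le_mul_of_nonneg_right _ hD0.le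
        nlinarith
      linarith
    have e5 : Real.exp (-(ε / 2 * D)) ≤ ε / 2 := by
      rw [Real.exp_neg, ← hDpow, inv_le_comm₀ (by positivity) (by positivity), inv_div]
      exact g2
    refine le_trans (Real.exp_le_exp.2 ?_) e5
    linarith
  -- the lower half
  set k₀ : ℕ := min ⌊(1 - ε) * (D / δ)⌋₊ K with hk₀
  have hk₀K : k₀ ≤ K := min_le_right _ _
  have hdn : (((seqs S K).filter (fun s => ¬ Run R V k₀ s)).card : ℝ) ≤ ε / 2 * (S.card : ℝ) ^ K := by
    rcases Nat.eq_zero_or_pos k₀ with hz | hz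
    · have : (seqs S K).filter (fun s => ¬ Run R V k₀ s) = ∅ := by
        apply filter_eq_empty_iff.2
        intro s _
        rw [not_not]
        obtain ⟨n, hn⟩ := hV
        exact ⟨n, hn, 0, by omega, fun i _ h => by omega⟩
      rw [this, card_empty, Nat.cast_zero]
      positivity
    · have hkD : (k₀ : ℝ) ≤ (1 - ε) * (D / δ) := by
        have h1 : k₀ ≤ ⌊(1 - ε) * (D / δ)⌋₊ := min_le_left _ _
        have h2 : 0 < ⌊(1 - ε) * (D / δ)⌋₊ := lt_of_lt_of_le hz h1
        have h3 : 0 ≤ (1 - ε) * (D / δ) := by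
          have := Nat.floor_pos.1 h2
          linarith
        exact (Nat.cast_le.2 h1).trans (Nat.floor_le h3)
      have hkD' : (k₀ : ℝ) * δ ≤ (1 - ε) * D := by
        rw [mul_div_assoc', le_div_iff₀ hδ] at hkD
        exact hkD
      have hkr : (1 : ℝ) ≤ k₀ := by exact_mod_cast hz
      obtain ⟨hr1, hr2⟩ := rate_bd η δ (by linarith) hδ hδη
      set m : ℕ := K / k₀ with hm
      have hmK : k₀ * m ≤ K := Nat.mul_div_le K k₀
      have hm1 : (K : ℝ) ≤ 2 * k₀ * m := by
        have h1 : K < k₀ * (m + 1) := Nat.lt_mul_div_succ K hz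
        have h2 : 1 ≤ m := Nat.div_pos hk₀K hz
        have h3 : K ≤ 2 * k₀ * m := by nlinarith
        exact_mod_cast h3
      -- it suffices to find the probability
      have hmain : ∀ p : ℝ, p ≤ 1 →
          p * (S.card : ℝ) ^ k₀ ≤ (((seqs S k₀).filter (fun s => Mis R V s)).card : ℝ) → D ≤ 3 / ε * Real.log K →
          c * (K : ℝ) ^ (-1 + ε / 2) ≤ p →
          (((seqs S K).filter (fun s => ¬ Run R V k₀ s)).card : ℝ) ≤ ε / 2 * (S.card : ℝ) ^ K := by
        intro p hp1 hp hDK hcp
        refine (blocks S V R k₀ p hp1 hp m K hmK).trans (mul_le_mul_of_nonneg_right ?_ hSK)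
        refine hK₀ K k₀ m p δ D ?_ hz hm1 hδ hDK ?_ ?_ hcp hp1
        · -- `K` is large
          have h1 : ((X : ℝ) * K) ^ (ε / 3) ≤ K := by
            rw [hDpow]
            calc Real.exp (ε / 3 * D) ≤ Real.exp (Real.log K) := by
                  apply Real.exp_le_exp.2
                  rw [div_mul_eq_mul_div, div_le_iff₀ (by norm_num)]
                  rw [div_mul_eq_mul_div, le_div_iff₀ hε] at hDK
                  linarith
              _ = K := Real.exp_log (by positivity)
          have h2 : (K₀ : ℝ) ≤ K := by linarith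
          exact_mod_cast h2
        · rw [le_div_iff₀ hδ]
          nlinarith
        · refine h1δ.trans ?_
          rw [hDpow, Real.rpow_def_of_pos (by positivity)]
          apply Real.exp_le_exp.2
          have h3 : η * D ≤ ε ^ 2 / 24 * (3 / ε * Real.log K) := mul_le_mul hη2 hDK hD0.le (by positivity)
          have h4 : ε ^ 2 / 24 * (3 / ε * Real.log K) = Real.log K * (ε / 8) := by
            field_simp
            ring
          linarith
      -- the first part
      rcases Nat.lt_or_ge X X₀ with hXX | hXX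
      · -- few points
        have h1 := mis_append η δ S V R hr1.le hhi 0 k₀
        have h2 : (((seqs S 0).filter (fun s => Mis R V s)).card : ℝ) = 1 := by
          have h3 : (seqs S 0).filter (fun s => Mis R V s) = seqs S 0 := by
            apply filter_true_of_mem
            intro s _
            obtain ⟨n, hn⟩ := hV
            exact ⟨n, hn, fun i => i.elim0⟩
          rw [h3, card_seqs, pow_zero, Nat.cast_one]
        rw [h2, one_mul] at h1
        have hgen : ∀ N : ℕ, 0 + k₀ = N → (((seqs S (0 + k₀)).filter (fun s => Mis R V s)).card : ℝ) =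
            (((seqs S N).filter (fun s => Mis R V s)).card : ℝ) := by
          rintro N rfl
          rfl
        rw [hgen k₀ (by omega)] at h1
        have hlK : Real.log X ≤ Real.log K := by
          apply Real.log_le_log (by linarith)
          have h3 : X ≤ K := by
            by_contra h
            rw [not_le] at h
            have : X * K ≤ X₀ ^ 2 := by nlinarith
            omega
          exact_mod_cast h3
        have hlK0 : 0 ≤ Real.log K := Real.log_nonneg hKr
        apply hmain (Real.exp (-((1 + 4 * η) * (k₀ * δ))))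
        · apply Real.exp_le_one_iff.2
          have : 0 ≤ (1 + 4 * η) * (k₀ * δ) := by positivity
          linarith
        · refine le_trans ?_ h1
          rw [mul_pow]
          apply mul_le_mul_of_nonneg_right _ (by positivity)
          calc Real.exp (-((1 + 4 * η) * (k₀ * δ))) = Real.exp (-((1 + 4 * η) * δ)) ^ k₀ := by
                rw [← Real.exp_nat_mul]
                congr 1
                ring
            _ ≤ (1 - (1 + η) * δ) ^ k₀ := pow_le_pow_left₀ (Real.exp_pos _).le hr2 k₀
        · rw [hDs]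
          have h3 : 3 ≤ 3 / ε := by
            rw [le_div_iff₀ hε]
            linarith
          nlinarith
        · have h3 : (K : ℝ) ^ (-1 + ε / 2) = Real.exp ((-1 + ε / 2) * Real.log K) := by
            rw [Real.rpow_def_of_pos (by positivity), mul_comm]
          rw [h3]
          have h4 : c ≤ Real.exp (-Real.log X) := by
            rw [Real.exp_neg, Real.exp_log (by positivity), hc, ← one_div, div_le_div_iff₀ (by positivity) (by positivity)]
            have h5 : Real.exp (-2) ≤ 1 := Real.exp_le_one_iff.2 (by norm_num)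
            have h6 : (X : ℝ) ≤ X₀ := by exact_mod_cast hXX.le
            nlinarith [Real.exp_pos (-2)]
          calc c * Real.exp ((-1 + ε / 2) * Real.log K) ≤ Real.exp (-Real.log X) * Real.exp ((-1 + ε / 2) * Real.log K) :=
                mul_le_mul_of_nonneg_right h4 (Real.exp_pos _).le
            _ = Real.exp (-Real.log X + (-1 + ε / 2) * Real.log K) := by rw [Real.exp_add]
            _ ≤ _ := by
                apply Real.exp_le_exp.2
                have h5 : (1 + 4 * η) * (k₀ * δ) ≤ (1 + 4 * η) * ((1 - ε) * D) :=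
                  mul_le_mul_of_nonneg_left hkD' (by linarith)
                have h6 : (1 + 4 * η) * (1 - ε) ≤ 1 - ε / 2 := by nlinarith
                have h7 : (1 + 4 * η) * ((1 - ε) * D) ≤ (1 - ε / 2) * D := by
                  rw [← mul_assoc]
                  exact mul_le_mul_of_nonneg_right h6 hD0.le
                have h8 : 0 ≤ Real.log X := Real.log_nonneg hXr
                rw [hDs] at h7
                nlinarith
      · -- many points
        have hX3 : 3 ≤ X := (le_max_right _ _).trans hXX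
        have hlX : 0 < Real.log X := Real.log_pos (by exact_mod_cast (by omega : 1 < X))
        have hR := hreg hXX hX3
        have hR' : Reg (ε / 4 / 100) δ S V R := Pool.Agent.Q145.LD.Reg.mono hδ.le (by linarith) hR
        have hfirst : ∀ k : ℕ, (k : ℝ) * δ ≤ (1 - ε / 4) * Real.log X →
            (1 - ε / 4) * (S.card : ℝ) ^ k ≤ (((seqs S k).filter (fun s => Mis R V s)).card : ℝ) := by
          intro k hk
          have h1 := hlow δ S V R hδ hR' ((le_max_left _ _).trans hXX) k (by
            unfold kap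
            rw [← hX, div_le_iff₀ hlX]
            exact hk)
          have h2 := card_filter_add_card_filter_not (s := seqs S k) (fun s => Mis R V s)
          rw [card_seqs] at h2
          have h3 : (((seqs S k).filter (fun s => ¬ Mis R V s)).card : ℝ) ≤ ε / 4 * (S.card : ℝ) ^ k := by
            refine le_trans (Nat.cast_le.2 (card_le_card ?_)) h1
            intro s hs
            rw [mem_filter] at hs ⊢
            refine ⟨hs.1, ?_⟩
            have h4 : surv R V s = 0 := by
              by_contra h5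
              exact hs.2 (mis_of_surv R V s (Nat.pos_of_ne_zero h5))
            rw [h4, Nat.cast_zero]
            exact Real.rpow_nonneg (Nat.cast_nonneg _) _
          have h4 : (((seqs S k).filter (fun s => Mis R V s)).card : ℝ) +
              (((seqs S k).filter (fun s => ¬ Mis R V s)).card : ℝ) = (S.card : ℝ) ^ k := by
            exact_mod_cast h2
          linarith
        rcases le_or_gt ((k₀ : ℝ) * δ) ((1 - ε / 4) * Real.log X) with hcase | hcase
        · -- one block
          have h1 := blocks S V R k₀ (1 - ε / 4) (by linarith) (hfirst k₀ hcase) 1 K (by omega)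
          refine h1.trans (mul_le_mul_of_nonneg_right ?_ hSK)
          rw [pow_one]
          linarith
        · -- many blocks
          set k₃ : ℕ := ⌊(1 - ε / 4) * Real.log X / δ⌋₊ with hk₃
          have hnn : 0 ≤ (1 - ε / 4) * Real.log X / δ := by
            have : 0 ≤ 1 - ε / 4 := by linarith
            positivity
          have h3a : (k₃ : ℝ) ≤ (1 - ε / 4) * Real.log X / δ := Nat.floor_le hnn
          have h3b : (1 - ε / 4) * Real.log X / δ < k₃ + 1 := Nat.lt_floor_add_one _
          have h3c : (k₃ : ℝ) * δ ≤ (1 - ε / 4) * Real.log X := by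
            rwa [le_div_iff₀ hδ] at h3a
          have h3d : (1 - ε / 4) * Real.log X < (k₃ + 1) * δ := by
            rwa [div_lt_iff₀ hδ] at h3b
          have h3e : k₃ ≤ k₀ := by
            have h4 : (k₃ : ℝ) * δ ≤ k₀ * δ := by linarith
            have h5 := le_of_mul_le_mul_right h4 hδ
            exact_mod_cast h5
          obtain ⟨k₂, hk₂⟩ : ∃ k₂, k₀ = k₃ + k₂ := ⟨k₀ - k₃, by omega⟩
          have h1 := mis_append η δ S V R hr1.le hhi k₃ k₂
          rw [← hk₂] at h1
          have hlKX : 3 * ε / 4 * Real.log X ≤ (1 - ε) * Real.log K := by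
            have : (1 - ε / 4) * Real.log X < (1 - ε) * D := by linarith
            rw [hDs] at this
            linarith
          have hlK0 : 0 ≤ Real.log K := Real.log_nonneg hKr
          have hεX : ε * Real.log X ≤ 2 * Real.log K := by nlinarith
          have hk₂δ : (k₂ : ℝ) * δ ≤ (1 - ε) * Real.log K + δ := by
            have h4 : (k₀ : ℝ) = k₃ + k₂ := by exact_mod_cast hk₂
            have h5 : (k₀ : ℝ) * δ = k₃ * δ + k₂ * δ := by rw [h4]; ring
            rw [hDs] at hkD'
            nlinarith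
          apply hmain ((1 - ε / 4) * Real.exp (-((1 + 4 * η) * (k₂ * δ))))
          · have h4 : Real.exp (-((1 + 4 * η) * (k₂ * δ))) ≤ 1 := by
              apply Real.exp_le_one_iff.2
              have : 0 ≤ (1 + 4 * η) * (k₂ * δ) := by positivity
              linarith
            nlinarith [Real.exp_pos (-((1 + 4 * η) * (k₂ * δ)))]
          · refine le_trans ?_ h1
            have h4 : Real.exp (-((1 + 4 * η) * (k₂ * δ))) ≤ (1 - (1 + η) * δ) ^ k₂ := by
              calc Real.exp (-((1 + 4 * η) * (k₂ * δ))) = Real.exp (-((1 + 4 * η) * δ)) ^ k₂ := by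
                    rw [← Real.exp_nat_mul]
                    congr 1
                    ring
                _ ≤ (1 - (1 + η) * δ) ^ k₂ := pow_le_pow_left₀ (Real.exp_pos _).le hr2 k₂
            calc (1 - ε / 4) * Real.exp (-((1 + 4 * η) * (k₂ * δ))) * (S.card : ℝ) ^ k₀ =
                  ((1 - ε / 4) * (S.card : ℝ) ^ k₃) * (Real.exp (-((1 + 4 * η) * (k₂ * δ))) * (S.card : ℝ) ^ k₂) := by
                  rw [hk₂, pow_add]
                  ring
              _ ≤ (((seqs S k₃).filter (fun s => Mis R V s)).card : ℝ) *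
                  ((1 - (1 + η) * δ) ^ k₂ * (S.card : ℝ) ^ k₂) := by
                  apply mul_le_mul (hfirst k₃ h3c) (mul_le_mul_of_nonneg_right h4 (by positivity)) (by positivity)
                    (Nat.cast_nonneg _)
              _ = _ := by rw [← mul_pow]
          · rw [hDs]
            have h4 : Real.log X ≤ 2 / ε * Real.log K := by
              rw [div_mul_eq_mul_div, le_div_iff₀ hε]
              linarith
            have h5 : Real.log K ≤ 1 / ε * Real.log K := by
              have : 1 ≤ 1 / ε := by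
                rw [le_div_iff₀ hε]
                linarith
              nlinarith
            have h6 : 2 / ε * Real.log K + 1 / ε * Real.log K = 3 / ε * Real.log K := by ring
            linarith
          · have h3 : (K : ℝ) ^ (-1 + ε / 2) = Real.exp ((-1 + ε / 2) * Real.log K) := by
              rw [Real.rpow_def_of_pos (by positivity), mul_comm]
            rw [h3]
            have h4 : c ≤ (1 - ε / 4) * Real.exp (-2) := by
              rw [hc, div_le_iff₀ (by positivity)]
              have h5 : 1 ≤ (1 - ε / 4) * (4 * X₀) := by nlinarith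
              nlinarith [Real.exp_pos (-2)]
            calc c * Real.exp ((-1 + ε / 2) * Real.log K) ≤
                  ((1 - ε / 4) * Real.exp (-2)) * Real.exp ((-1 + ε / 2) * Real.log K) :=
                  mul_le_mul_of_nonneg_right h4 (Real.exp_pos _).le
              _ = (1 - ε / 4) * Real.exp (-2 + (-1 + ε / 2) * Real.log K) := by rw [Real.exp_add]; ring
              _ ≤ _ := by
                  apply mul_le_mul_of_nonneg_left _ (by linarith)
                  apply Real.exp_le_exp.2
                  have h5 : (1 + 4 * η) * (k₂ * δ) ≤ (1 + 4 * η) * ((1 - ε) * Real.log K + δ) :=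
                    mul_le_mul_of_nonneg_left hk₂δ (by linarith)
                  have h6 : (1 + 4 * η) * (1 - ε) ≤ 1 - ε / 2 := by nlinarith
                  have h7 : (1 + 4 * η) * ((1 - ε) * Real.log K) ≤ (1 - ε / 2) * Real.log K := by
                    rw [← mul_assoc]
                    exact mul_le_mul_of_nonneg_right h6 hlK0
                  have h8 : (1 + 4 * η) * δ ≤ 2 := by nlinarith
                  linarith
  -- both halves
  have hsub : (seqs S K).filter (fun s => ¬ ∀ t : ℕ,
      (Run R V t s → (t : ℝ) ≤ (1 + ε) * (D / δ)) ∧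
      (t ≤ K → (t : ℝ) ≤ (1 - ε) * (D / δ) → Run R V t s)) ⊆
      (seqs S K).filter (fun s => Run R V k₁ s) ∪ (seqs S K).filter (fun s => ¬ Run R V k₀ s) := by
    intro s hs
    rw [mem_filter] at hs
    rw [mem_union, mem_filter, mem_filter]
    by_contra h
    rw [not_or] at h
    apply hs.2
    have h1 : ¬ Run R V k₁ s := fun h' => h.1 ⟨hs.1, h'⟩
    have h2 : Run R V k₀ s := by
      by_contra h'
      exact h.2 ⟨hs.1, h'⟩
    intro t
    refine ⟨fun ht => ?_, fun htK ht => ?_⟩
    · by_contra h3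
      rw [not_le] at h3
      apply h1
      refine run_mono R V s k₁ t ?_ ht
      rw [hk₁]
      have := (Nat.floor_lt (by positivity)).2 h3
      omega
    · exact run_mono R V s t k₀ (le_min (Nat.le_floor ht) htK) h2
  have hfin : (((seqs S K).filter (fun s => ¬ ∀ t : ℕ,
      (Run R V t s → (t : ℝ) ≤ (1 + ε) * (D / δ)) ∧
      (t ≤ K → (t : ℝ) ≤ (1 - ε) * (D / δ) → Run R V t s))).card : ℝ) ≤
      ((seqs S K).filter (fun s => Run R V k₁ s)).card + ((seqs S K).filter (fun s => ¬ Run R V k₀ s)).card := by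
    exact_mod_cast (card_le_card hsub).trans (card_union_le _ _)
  linarith

end Pool.Agent.Q145.TP
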