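import Pool.Agent.Q145.LD.Iter
import Pool.Agent.Q145.RA.Law

set_option autoImplicit false
set_option maxHeartbeats 4000000

/-! # Runs without hits in long sequences -/

namespace Pool.Agent.Q145.TP

open Finset Filter
open Pool.Agent.Q145.RA (seqs card_seqs Reg kap surv)
open Pool.Agent.Q145.LD (card_append mem_seqs card_not_le)

open scoped Classical

variable {α β : Type}

/-- `n` is not hit in the window -/
def MW (R : α → β → Prop) (n : α) (j k : ℕ) {K : ℕ} (s : Fin K → β) : Prop :=
  ∀ i : Fin K, j ≤ (i : ℕ) → (i : ℕ) < j + k → ¬ R n (s i)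

/-- some point of `V` is not hit by `k` consecutive terms -/
def Run (R : α → β → Prop) (V : Finset α) (k : ℕ) {K : ℕ} (s : Fin K → β) : Prop :=
  ∃ n ∈ V, ∃ j : ℕ, j + k ≤ K ∧ MW R n j k s

/-- some point of `V` is not hit -/
def Mis (R : α → β → Prop) (V : Finset α) {k : ℕ} (s : Fin k → β) : Prop := ∃ n ∈ V, ∀ i, ¬ R n (s i)

theorem card_miss (R : α → β → Prop) (S : Finset β) (n : α) (k : ℕ) :
    ((seqs S k).filter (fun s => ∀ i, ¬ R n (s i))).card = (S.card - (S.filter (fun a => R n a)).card) ^ k := by
  have h1 : (seqs S k).filter (fun s => ∀ i, ¬ R n (s i)) =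
      Fintype.piFinset (fun _ : Fin k => S.filter (fun a => ¬ R n a)) := by
    ext s
    rw [mem_filter, mem_seqs, Fintype.mem_piFinset]
    constructor
    · rintro ⟨h1, h2⟩ i
      exact mem_filter.2 ⟨h1 i, h2 i⟩
    · intro h1
      exact ⟨fun i => (mem_filter.1 (h1 i)).1, fun i => (mem_filter.1 (h1 i)).2⟩
  rw [h1, Fintype.card_piFinset_const]
  congr 1
  have h6 := card_filter_add_card_filter_not (s := S) (fun a => R n a)
  omega

/-- the number of the sequences missing a fixed point in a fixed window -/
theorem card_miss_window (R : α → β → Prop) (S : Finset β) (n : α) (K j k : ℕ) (h : j + k ≤ K) :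
    ((seqs S K).filter (fun s => MW R n j k s)).card =
      (S.card - (S.filter (fun a => R n a)).card) ^ k * S.card ^ (K - k) := by
  obtain ⟨r, rfl⟩ : ∃ r, K = j + (k + r) := ⟨K - j - k, by omega⟩
  rw [card_append]
  have h1 : ∀ s ∈ seqs S j, ((seqs S (k + r)).filter (fun t => MW R n j k (Fin.append s t))).card =
      (S.card - (S.filter (fun a => R n a)).card) ^ k * S.card ^ r := by
    intro s _
    have e1 : ((seqs S (k + r)).filter (fun t => MW R n j k (Fin.append s t))).card =
        ((seqs S (k + r)).filter (fun t => MW R n 0 k t)).card := by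
      apply congrArg
      apply filter_congr
      intro t _
      constructor
      · intro h2 i _ hi
        have := h2 (Fin.natAdd j i) (by rw [Fin.val_natAdd]; omega) (by rw [Fin.val_natAdd]; omega)
        rwa [Fin.append_right] at this
      · intro h2 i
        refine Fin.addCases (fun i' => ?_) (fun i' => ?_) i
        · intro h3
          rw [Fin.val_castAdd] at h3
          have := i'.2
          omega
        · intro _ h4
          rw [Fin.append_right]
          rw [Fin.val_natAdd] at h4
          exact h2 i' (Nat.zero_le _) (by omega)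
    rw [e1, card_append]
    have e2 : ∀ t ∈ seqs S k, ((seqs S r).filter (fun w => MW R n 0 k (Fin.append t w))).card =
        if (∀ i, ¬ R n (t i)) then S.card ^ r else 0 := by
      intro t _
      by_cases h3 : ∀ i, ¬ R n (t i)
      · rw [if_pos h3, filter_true_of_mem, card_seqs]
        intro w _ i
        refine Fin.addCases (fun i' => ?_) (fun i' => ?_) i
        · intro _ _
          rw [Fin.append_left]
          exact h3 i'
        · intro _ h4
          rw [Fin.val_natAdd] at h4
          omega
      · rw [if_neg h3, filter_false_of_mem, card_empty]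
        intro w _ h4
        apply h3
        intro i
        have := h4 (Fin.castAdd r i) (Nat.zero_le _) (by rw [Fin.val_castAdd]; have := i.2; omega)
        rwa [Fin.append_left] at this
    rw [sum_congr rfl e2, ← sum_filter, sum_const, smul_eq_mul, ← card_miss R S n k]
  rw [sum_congr rfl h1, sum_const, card_seqs, smul_eq_mul, mul_left_comm, ← pow_add]
  congr 2
  omega

/-- long runs are rare -/
theorem runs_upper (η δ : ℝ) (S : Finset β) (V : Finset α) (R : α → β → Prop)
    (hlo : ∀ n ∈ V, (1 - η) * δ * S.card ≤ ((S.filter (fun a => R n a)).card : ℝ)) (K k : ℕ) (hk : 0 < k) :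
    (((seqs S K).filter (fun s => Run R V k s)).card : ℝ) ≤
      V.card * K * Real.exp (-((1 - η) * δ * k)) * (S.card : ℝ) ^ K := by
  have hS0 : (0 : ℝ) ≤ S.card := Nat.cast_nonneg _
  set J : Finset (α × ℕ) := V ×ˢ (range K) with hJ
  have hsub : (seqs S K).filter (fun s => Run R V k s) ⊆ (J.filter (fun p => p.2 + k ≤ K)).biUnion (fun p =>
      (seqs S K).filter (fun s => MW R p.1 p.2 k s)) := by
    intro s hs
    rw [mem_filter] at hs
    obtain ⟨h1, n, hn, j, hj, h2⟩ := hs
    rw [mem_biUnion]
    refine ⟨(n, j), mem_filter.2 ⟨mem_product.2 ⟨hn, mem_range.2 ?_⟩, hj⟩, mem_filter.2 ⟨h1, h2⟩⟩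
    show j < K
    omega
  have h1 : (((seqs S K).filter (fun s => Run R V k s)).card : ℝ) ≤ ∑ p ∈ J.filter (fun p => p.2 + k ≤ K),
      (((seqs S K).filter (fun s => MW R p.1 p.2 k s)).card : ℝ) := by
    exact_mod_cast (card_le_card hsub).trans card_biUnion_le
  refine h1.trans ?_
  have h2 : ∀ p ∈ J.filter (fun p => p.2 + k ≤ K),
      (((seqs S K).filter (fun s => MW R p.1 p.2 k s)).card : ℝ) ≤
      Real.exp (-((1 - η) * δ * k)) * (S.card : ℝ) ^ K := by
    rintro ⟨n, j⟩ hp
    obtain ⟨h3, h4⟩ := mem_filter.1 hp
    have hn : n ∈ V := (mem_product.1 h3).1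
    have h4' : j + k ≤ K := h4
    show (((seqs S K).filter (fun s => MW R n j k s)).card : ℝ) ≤ _
    rw [card_miss_window R S n K j k h4']
    have h5 : (S.filter (fun a => R n a)).card ≤ S.card := card_le_card (filter_subset _ _)
    rw [Nat.cast_mul, Nat.cast_pow, Nat.cast_pow, Nat.cast_sub h5]
    have h8 : (S.card : ℝ) - ((S.filter (fun a => R n a)).card : ℝ) ≤ S.card * Real.exp (-((1 - η) * δ)) := by
      have h9 := Real.add_one_le_exp (-((1 - η) * δ))
      have h10 := mul_le_mul_of_nonneg_left h9 hS0
      have h11 := hlo n hn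
      nlinarith
    have h9 : (0 : ℝ) ≤ (S.card : ℝ) - ((S.filter (fun a => R n a)).card : ℝ) := by
      have : ((S.filter (fun a => R n a)).card : ℝ) ≤ S.card := by exact_mod_cast h5
      linarith
    calc ((S.card : ℝ) - ((S.filter (fun a => R n a)).card : ℝ)) ^ k * (S.card : ℝ) ^ (K - k) ≤
        (S.card * Real.exp (-((1 - η) * δ))) ^ k * (S.card : ℝ) ^ (K - k) :=
          mul_le_mul_of_nonneg_right (pow_le_pow_left₀ h9 h8 k) (by positivity)
      _ = Real.exp (-((1 - η) * δ * k)) * ((S.card : ℝ) ^ k * (S.card : ℝ) ^ (K - k)) := by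
          rw [mul_pow, ← Real.exp_nat_mul]
          have : (k : ℝ) * (-((1 - η) * δ)) = -((1 - η) * δ * k) := by ring
          rw [this]
          ring
      _ = _ := by
          rw [← pow_add]
          congr 2
          omega
  refine (sum_le_sum h2).trans ?_
  rw [sum_const, nsmul_eq_mul]
  have h3 : ((J.filter (fun p => p.2 + k ≤ K)).card : ℝ) ≤ V.card * K := by
    have : (J.filter (fun p => p.2 + k ≤ K)).card ≤ V.card * K := by
      refine (card_le_card (filter_subset _ _)).trans ?_
      rw [hJ, card_product, card_range]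
    exact_mod_cast this
  calc _ ≤ (V.card * K : ℝ) * (Real.exp (-((1 - η) * δ * k)) * (S.card : ℝ) ^ K) :=
        mul_le_mul_of_nonneg_right h3 (by positivity)
    _ = _ := by ring

/-- a missed point stays missed -/
theorem mis_append (η δ : ℝ) (S : Finset β) (V : Finset α) (R : α → β → Prop)
    (hδ1 : (1 + η) * δ ≤ 1)
    (hhi : ∀ n ∈ V, ((S.filter (fun a => R n a)).card : ℝ) ≤ (1 + η) * δ * S.card) (k₁ k₂ : ℕ) :
    (((seqs S k₁).filter (fun s => Mis R V s)).card : ℝ) * ((1 - (1 + η) * δ) * S.card) ^ k₂ ≤
      (((seqs S (k₁ + k₂)).filter (fun s => Mis R V s)).card : ℝ) := by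
  rw [card_append, Nat.cast_sum]
  have h1 : ∑ s ∈ (seqs S k₁).filter (fun s => Mis R V s), ((1 - (1 + η) * δ) * S.card) ^ k₂ ≤
      ∑ s ∈ (seqs S k₁).filter (fun s => Mis R V s),
        (((seqs S k₂).filter (fun t => Mis R V (Fin.append s t))).card : ℝ) := by
    apply sum_le_sum
    intro s hs
    obtain ⟨n, hn, h2⟩ := (mem_filter.1 hs).2
    have h3 : (((seqs S k₂).filter (fun t => ∀ i, ¬ R n (t i))).card : ℝ) ≤
        (((seqs S k₂).filter (fun t => Mis R V (Fin.append s t))).card : ℝ) := by
      apply Nat.cast_le.2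
      apply card_le_card
      intro t ht
      rw [mem_filter] at ht ⊢
      refine ⟨ht.1, n, hn, fun i => ?_⟩
      refine Fin.addCases (fun i' => ?_) (fun i' => ?_) i
      · rw [Fin.append_left]
        exact h2 i'
      · rw [Fin.append_right]
        exact ht.2 i'
    refine le_trans ?_ h3
    have h5 : (S.filter (fun a => R n a)).card ≤ S.card := card_le_card (filter_subset _ _)
    rw [card_miss, Nat.cast_pow, Nat.cast_sub h5]
    apply pow_le_pow_left₀ (mul_nonneg (by linarith) (Nat.cast_nonneg _))
    have := hhi n hn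
    linarith
  rw [sum_const, nsmul_eq_mul] at h1
  refine h1.trans ?_
  apply sum_le_sum_of_subset_of_nonneg (filter_subset _ _)
  intro _ _ _
  exact Nat.cast_nonneg _

/-- blocks are independent -/
theorem blocks (S : Finset β) (V : Finset α) (R : α → β → Prop) (k : ℕ) (p : ℝ) (hp1 : p ≤ 1)
    (hp : p * (S.card : ℝ) ^ k ≤ (((seqs S k).filter (fun s => Mis R V s)).card : ℝ)) :
    ∀ (m K : ℕ), k * m ≤ K →
    (((seqs S K).filter (fun s => ¬ Run R V k s)).card : ℝ) ≤ (1 - p) ^ m * (S.card : ℝ) ^ K := by
  intro m
  induction m with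
  | zero =>
    intro K _
    rw [pow_zero, one_mul]
    exact card_not_le S K _
  | succ m ih =>
    intro K hK
    obtain ⟨r, rfl⟩ : ∃ r, K = k + r := ⟨K - k, by
      rw [Nat.mul_succ] at hK
      omega⟩
    have hr : k * m ≤ r := by
      rw [Nat.mul_succ] at hK
      omega
    have h1 := ih r hr
    have h2 : (((seqs S (k + r)).filter (fun s => ¬ Run R V k s)).card : ℝ) =
        ∑ s ∈ seqs S k, (((seqs S r).filter (fun t => ¬ Run R V k (Fin.append s t))).card : ℝ) := by
      have := card_append S k r (fun s => ¬ Run R V k s)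
      rw [Pool.Agent.Q145.RA.card_filter_inst _ _ _ (fun _ => Classical.propDecidable _), this, Nat.cast_sum]
      apply sum_congr rfl
      intro s _
      rw [Pool.Agent.Q145.RA.card_filter_inst]
    rw [h2]
    -- the first block must not be missed
    have h3 : ∀ s ∈ seqs S k, (((seqs S r).filter (fun t => ¬ Run R V k (Fin.append s t))).card : ℝ) ≤
        if Mis R V s then 0 else (((seqs S r).filter (fun t => ¬ Run R V k t)).card : ℝ) := by
      intro s _
      by_cases h4 : Mis R V s
      · rw [if_pos h4]
        have : (seqs S r).filter (fun t => ¬ Run R V k (Fin.append s t)) = ∅ := by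
          apply filter_eq_empty_iff.2
          intro t _
          rw [not_not]
          obtain ⟨n, hn, h5⟩ := h4
          refine ⟨n, hn, 0, by omega, fun i => ?_⟩
          refine Fin.addCases (fun i' => ?_) (fun i' => ?_) i
          · intro _ _
            rw [Fin.append_left]
            exact h5 i'
          · intro _ h6
            rw [Fin.val_natAdd] at h6
            omega
        rw [this, card_empty, Nat.cast_zero]
      · rw [if_neg h4]
        apply Nat.cast_le.2
        apply card_le_card
        intro t ht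
        rw [mem_filter] at ht ⊢
        refine ⟨ht.1, fun h5 => ht.2 ?_⟩
        obtain ⟨n, hn, j, hj, h6⟩ := h5
        refine ⟨n, hn, k + j, by omega, fun i => ?_⟩
        refine Fin.addCases (fun i' => ?_) (fun i' => ?_) i
        · intro h7 _
          rw [Fin.val_castAdd] at h7
          have := i'.2
          omega
        · intro h7 h8
          rw [Fin.append_right]
          rw [Fin.val_natAdd] at h7 h8
          exact h6 i' (by omega) (by omega)
    have h4 : ∑ s ∈ seqs S k, (if Mis R V s then (0 : ℝ) else (((seqs S r).filter (fun t => ¬ Run R V k t)).card : ℝ)) =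
        (((seqs S k).filter (fun s => ¬ Mis R V s)).card : ℝ) *
          (((seqs S r).filter (fun t => ¬ Run R V k t)).card : ℝ) := by
      rw [sum_ite, sum_const_zero, zero_add, sum_const, nsmul_eq_mul]
    have h5 : (((seqs S k).filter (fun s => ¬ Mis R V s)).card : ℝ) ≤ (1 - p) * (S.card : ℝ) ^ k := by
      have h6 := card_filter_add_card_filter_not (s := seqs S k) (fun s => Mis R V s)
      rw [card_seqs] at h6
      have h7 : (((seqs S k).filter (fun s => Mis R V s)).card : ℝ) +
          (((seqs S k).filter (fun s => ¬ Mis R V s)).card : ℝ) = (S.card : ℝ) ^ k := by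
        exact_mod_cast h6
      linarith
    refine (sum_le_sum h3).trans ?_
    rw [h4, pow_succ, pow_add]
    calc (((seqs S k).filter (fun s => ¬ Mis R V s)).card : ℝ) *
          (((seqs S r).filter (fun t => ¬ Run R V k t)).card : ℝ) ≤
          ((1 - p) * (S.card : ℝ) ^ k) * ((1 - p) ^ m * (S.card : ℝ) ^ r) :=
          mul_le_mul h5 h1 (Nat.cast_nonneg _) (mul_nonneg (by linarith) (by positivity))
      _ = _ := by ring

end Pool.Agent.Q145.TP
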